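import Pool.Agent.Helper58.NB.FinO

set_option autoImplicit false

/-!
# Complex structures on torus bundles over complex manifolds fibred over a Riemann surface

Let `M` be a smooth manifold of dimension `2k` which is a quotient of `Ω × V` by a group `P`, where

* `P` acts on the complex plane or the upper half plane `Y` by holomorphic maps, properly
  discontinuously and cocompactly, so that `S = Y / P` is a closed Riemann surface, and `F` is a
  nonconstant holomorphic function on `Y` with `F (γ z) - F z ∈ ℤ[i]`, in other words a branched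
  covering of the elliptic curve `ℂ / ℤ[i]` by `S`;
* `Ω` is a domain in a complex vector space on which `P` acts by holomorphic maps, and `p : Ω → Y` is a
  holomorphic map with `p (γ x) = γ (p x)`; so `B = Ω / P` is a complex manifold with a holomorphic map
  to `S`;
* `V` is a real vector space of dimension `2m ≥ 4`, `U` is a complex vector space, and `N = U × V` is
  the two-step nilpotent group with the product `(u, v) (u', v') = (u + u', v + v' + β(u, u') / 2)`,
  where `β` is an alternating bilinear map with `β(iu, iu') = β(u, u')`;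
* `φ_γ`, `γ ∈ P`, is a representation of `P` by automorphisms of `N` that preserve `V` and are complex
  linear on `U = N / V`, such that the flat vector bundle over `S` with fibre `U × V` and holonomy `φ`
  has a smooth frame (`G`) that preserves `V`;
* `u : Ω → U` is a holomorphic map such that `u (γ x)` is the `U`-coordinate of `n_γ φ_γ(u(x), v)`, where
  `n_γ(z) = (e_γ, b_γ(z)) ∈ N`, `b_γ` is a smooth function on `Y` (constant if `γ` acts trivially on
  `Y`) and `n_{γδ}(z) = n_γ(δz) φ_γ(n_δ(z))`;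
* `γ` acts on `Ω × V` by `(x, v) ↦ (γx, v')`, `v'` the `V`-coordinate of `n_γ(p(x)) φ_γ(u(x), v)`.

Then `M` carries a complex structure.

For `Ω = Y`, `U = 0` these are the affine torus bundles over `S` (an earlier result). For
`Ω = Y × U`, with `p` and `u` the projections, `γ` acts by `(z, n) ↦ (γz, n_γ(z) φ_γ(n))`, and these are
bundles over `S` whose fibre is a quotient of the two-step nilpotent group `N`, with arbitrary
monodromies on `V` and arbitrary `z`-dependence of the translations in `V`. If `Ω` is a product `Y × Ω'`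
these are torus bundles over products `S × B'`, where `u : Ω' → U` is for example a map to the Albanese
variety; for example over products of two Riemann surfaces.

The difficulty: for `B = S` every twisting of the bundle is of type `(1, 1)`; here it has a component of
type `(0, 2)`, given by the `V`-valued part of `φ_γ` on `U`. The complex structure of the fibre `V` at
`x` is given by a subspace `W` of `V ⊗ ℂ` that depends on `p(x)`, through a map of `S` to a line in
the twistor space; and the rows, the functionals with kernel `W`, are extended to a holomorphic family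
of functionals on `(U × V) ⊗ ℂ`, equivariant for `φ`. This uses the positivity of the bundle `V ⊗ ℂ / W`.
The remaining part of the twisting, given by `β`, is of type `(1, 1)` and is removed by a quadratic
function.
-/

namespace Pool.Agent.Results.MP_1d980c_gt.CentralTorusBundles

open Module TopologicalSpace
open scoped Manifold ContDiff

/-- The product of the two-step nilpotent group `N = U × V`:
`(u, v) (u', v') = (u + u', v + v' + β(u, u') / 2)`. -/
noncomputable def mul {U V : Type} [NormedAddCommGroup U] [NormedSpace ℂ U]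
    [NormedAddCommGroup V] [NormedSpace ℝ V] (β : U →L[ℝ] U →L[ℝ] V) (x y : U × V) : U × V :=
  (x.1 + y.1, x.2 + y.2 + (1 / 2 : ℝ) • β x.1 y.1)

/-- `φ` is an endomorphism of the group `N = U × V` that maps `V` to `V` and is complex linear on
`U = N / V`. -/
structure IsHom {U V : Type} [NormedAddCommGroup U] [NormedSpace ℂ U]
    [NormedAddCommGroup V] [NormedSpace ℝ V] (β : U →L[ℝ] U →L[ℝ] V)
    (φ : (U × V) →L[ℝ] (U × V)) : Prop where
  hom : ∀ x y, φ (mul β x y) = mul β (φ x) (φ y)
  fibre : ∀ v : V, (φ (0, v)).1 = 0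
  holo : ∀ u : U, (φ (Complex.I • u, 0)).1 = Complex.I • (φ (u, 0)).1

/-- **Complex structures on torus bundles over complex manifolds fibred over a Riemann surface.** -/
theorem result (k m : ℕ) (hm : 2 ≤ m)
    -- `Y` is the plane or the upper half plane
    (Y : Opens ℂ) (hY : (Y : Set ℂ) = Set.univ ∨ (Y : Set ℂ) = {z | 0 < z.im})
    -- a group of holomorphic maps of `Y`, properly discontinuous and cocompact
    (P : Type) [Group P] [MulAction P Y]
    (hol : ∀ γ : P, ContMDiff 𝓘(ℂ) 𝓘(ℂ) ∞ fun z : Y => γ • z)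
    (hprop : ∀ K : Set Y, IsCompact K →
      {σ : Y → Y | ∃ γ : P, (σ = fun z => γ • z) ∧ ∃ z ∈ K, γ • z ∈ K}.Finite)
    (hcomp : ∃ K : Set Y, IsCompact K ∧ ∀ z, ∃ γ : P, γ • z ∈ K)
    -- a nonconstant holomorphic map of `Y / P` to the elliptic curve `ℂ / ℤ[i]`
    (F : Y → ℂ) (hF : ContMDiff 𝓘(ℂ) 𝓘(ℂ) ∞ F) (hF' : ∃ z w, F z ≠ F w)
    (hFP : ∀ γ : P, ∃ m n : ℤ, ∀ z, F (γ • z) = F z + m + n * Complex.I)
    -- the group `N = U × V`
    (U : Type) [NormedAddCommGroup U] [NormedSpace ℂ U] [FiniteDimensional ℂ U]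
    (V : Type) [NormedAddCommGroup V] [NormedSpace ℝ V] [FiniteDimensional ℝ V]
    (hV : finrank ℝ V = 2 * m) (β : U →L[ℝ] U →L[ℝ] V) (hβ : ∀ u, β u u = 0)
    (hJ : ∀ u w, β (Complex.I • u) (Complex.I • w) = β u w)
    -- a representation of `P` by automorphisms of `N`, and a smooth frame of its flat bundle
    (φ : P →* ((U × V) →L[ℝ] (U × V))) (hφ : ∀ γ, IsHom β (φ γ))
    (G : Y → (U × V) ≃L[ℝ] (U × V))
    (hG : ContMDiff 𝓘(ℝ, ℂ) 𝓘(ℝ, (U × V) →L[ℝ] (U × V)) ∞ fun z =>
      (G z : (U × V) →L[ℝ] (U × V)))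
    (hGV : ∀ z v, (G z (0, v)).1 = 0) (hGφ : ∀ γ z x, G (γ • z) x = φ γ (G z x))
    -- the translations
    (e : P → U) (b : P → Y → V) (hb : ∀ γ, ContMDiff 𝓘(ℝ, ℂ) 𝓘(ℝ, V) ∞ (b γ))
    (hbc : ∀ γ δ z, (e (γ * δ), b (γ * δ) z) = mul β (e γ, b γ (δ • z)) (φ γ (e δ, b δ z)))
    (hbk : ∀ γ, (∀ z : Y, γ • z = z) → ∃ v, ∀ z, b γ z = v)
    -- the domain `Ω`, the action of `P` on `Ω`, and the maps `p` and `u`
    (E : Type) [NormedAddCommGroup E] [NormedSpace ℂ E] [FiniteDimensional ℂ E]
    (hk : finrank ℂ E + m = k) (Ω : Opens E) [Nonempty Ω] [MulAction P Ω]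
    (holΩ : ∀ γ : P, ContMDiff 𝓘(ℂ, E) 𝓘(ℂ, E) ∞ fun x : Ω => γ • x)
    (p : Ω → Y) (hp : ContMDiff 𝓘(ℂ, E) 𝓘(ℂ) ∞ p)
    (hpP : ∀ (γ : P) (x : Ω), p (γ • x) = γ • p x)
    (u : Ω → U) (hu : ContMDiff 𝓘(ℂ, E) 𝓘(ℂ, U) ∞ u)
    (huP : ∀ (γ : P) (x : Ω), u (γ • x) = e γ + (φ γ (u x, 0)).1)
    -- the smooth manifold `M`, the quotient of `Ω × V` by `P`
    (M : Type) [TopologicalSpace M] [ChartedSpace (EuclideanSpace ℝ (Fin (2 * k))) M]
    [IsManifold (𝓡 (2 * k)) ∞ M] (π : Ω × V → M) (hs : Function.Surjective π)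
    (hl : IsLocalDiffeomorph (𝓘(ℝ, E).prod 𝓘(ℝ, V)) (𝓡 (2 * k)) ∞ π)
    (hπ : ∀ x y, π x = π y ↔
      ∃ γ : P, (γ • x.1, (mul β (e γ, b γ (p x.1)) (φ γ (u x.1, x.2))).2) = y) :
    ∃ (N : Type) (_ : TopologicalSpace N) (_ : ChartedSpace (EuclideanSpace ℂ (Fin k)) N),
      IsManifold 𝓘(ℂ, EuclideanSpace ℂ (Fin k)) ∞ N ∧
      Nonempty (Diffeomorph (𝓡 (2 * k)) 𝓘(ℝ, EuclideanSpace ℂ (Fin k)) M N ∞) :=
  Pool.Agent.Helper58.NB.final k m hm Y hY P hol hprop hcomp F hF hF' hFP U V hV β hβ hJ φ
    (fun γ => ⟨(hφ γ).hom, (hφ γ).fibre, (hφ γ).holo⟩) G hG hGV hGφ e b hb hbc hbk E hk Ω holΩ p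
    hp hpP u hu huP M π hs hl hπ

end Pool.Agent.Results.MP_1d980c_gt.CentralTorusBundles
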