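import Pool.Agent.H36.CX.Fn

set_option autoImplicit false

/-!
# Complex structures on affine torus bundles with nontrivial flat bundles, also over orbifolds

Let `k ≥ 3`. Let `M` be a smooth manifold which is a quotient of `Y × V` by a group `P`, where

* `Y` is the complex plane or the upper half plane, and `P` acts on it by holomorphic maps, properly
  discontinuously and cocompactly,
* `F` is a nonconstant holomorphic function on `Y` with `F (γ z) = ± F z + p + q i`, where the sign
  and the integers `p`, `q` depend on `γ` (they are `s γ`, `p γ`, `q γ`): a map of the orbifold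
  `Y / P` to the orbifold `ℂ / (± 1, ℤ[i])`,
* `V` is a real vector space of dimension `2k - 2`, and `γ ∈ P` acts on `Y × V` by
  `(z, v) ↦ (γ z, A_γ v + b_γ(z))`, where `A` is a representation of `P` on `V`, and
  `b_γ : Y → V` is smooth, and constant if `γ` acts trivially on `Y`,
* the flat vector bundle with holonomy `A` is, as a smooth vector bundle, the pull back under `F` of
  the flat bundle with fibre `ℝ × ℝ × ℝ × U`, `dim U = 2k - 5`, and with the holonomy
  `(x, y, t, u) ↦ ((-1) ^ p x, (-1) ^ q y, (-1) ^ (p + q) t, u)` (this is the frame `G`).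

Then `M` carries a complex structure.

If `Y / P` is a closed surface and all signs are `1`, then the second Stiefel-Whitney class of the
flat bundle with holonomy `A` is the degree of the map `F` to `ℂ / ℤ[i]` modulo two. So odd
degrees give the nontrivial oriented bundles. If all the integers `p`, `q` are even (the function
is twice a function with periods in `ℤ[i]`), then the hypothesis says that the bundle is trivial.
Every closed oriented surface of genus `≥ 1` has complex structures with functions `F` of odd and
of even periods, so the theorem applies to all affine torus bundles with fibres of dimension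
`2k - 2 ≥ 4` and orientable total space over all closed oriented surfaces of genus `≥ 1`.

The idea of the proof. The pairs of theta functions of degree two at `n F(z) / 2`, `n` odd and
large, change under the half periods by the projective representation of the Klein four-group
`(s₀, s₁) ↦ (s₀, -s₁), (s₁, s₀)`. There are three families of complex structures, parametrised by
the projective line and equivariant under this group: on `ℝ⁴` the twistor line, on `ℝ⁶` (binary
quartics and constants) the family that belongs to the twisted cubic in the projective space of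
dimension three, and families on `ℂ ^ m`, `m ≥ 2`, with trivial action. This gives approximate
rows, which transform by matrices of holomorphic functions. The rows are corrected for a subgroup
of finite index, by the contraction of the starting file `AffineTorusBundles`, and then averaged
over the finite quotient; the error stays small, so the average is nondegenerate.
-/

namespace Pool.Agent.Results.MP_1d980c_gt.TwistedTorusBundles

open Module TopologicalSpace
open scoped Manifold ContDiff

theorem result (k : ℕ) (hk : 3 ≤ k)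
    -- `Y` is the plane or the upper half plane
    (Y : Opens ℂ) (hY : (Y : Set ℂ) = Set.univ ∨ (Y : Set ℂ) = {z | 0 < z.im})
    -- a group of holomorphic maps of `Y`, properly discontinuous and cocompact
    (P : Type) [Group P] [MulAction P Y]
    (hol : ∀ γ : P, ContMDiff 𝓘(ℂ) 𝓘(ℂ) ∞ fun z : Y => γ • z)
    (hprop : ∀ K : Set Y, IsCompact K →
      {σ : Y → Y | ∃ γ : P, (σ = fun z => γ • z) ∧ ∃ z ∈ K, γ • z ∈ K}.Finite)
    (hcomp : ∃ K : Set Y, IsCompact K ∧ ∀ z, ∃ γ : P, γ • z ∈ K)
    -- a nonconstant holomorphic function with `F (γ z) = ± F z + p + q i`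
    (F : Y → ℂ) (hF : ContMDiff 𝓘(ℂ) 𝓘(ℂ) ∞ F) (hF' : ∃ z w, F z ≠ F w)
    (s p q : P → ℤ) (hsg : ∀ γ, s γ = 1 ∨ s γ = -1)
    (hFP : ∀ γ z, F (γ • z) = s γ * F z + p γ + q γ * Complex.I)
    -- a representation of the group, and a smooth isomorphism of its flat vector bundle with the
    -- pull back of the flat vector bundle of the signs `(-1) ^ p`, `(-1) ^ q`, `(-1) ^ (p + q)`
    (U : Type) [NormedAddCommGroup U] [NormedSpace ℝ U] [FiniteDimensional ℝ U]
    (hU : finrank ℝ U + 5 = 2 * k) (V : Type) [NormedAddCommGroup V] [NormedSpace ℝ V]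
    (A : P →* (V →L[ℝ] V)) (G : Y → (ℝ × ℝ × ℝ × U) ≃L[ℝ] V)
    (hG : ContMDiff 𝓘(ℝ, ℂ) 𝓘(ℝ, (ℝ × ℝ × ℝ × U) →L[ℝ] V) ∞
      fun z => (G z : (ℝ × ℝ × ℝ × U) →L[ℝ] V))
    (hGA : ∀ γ z x y t u, G (γ • z) ((-1) ^ p γ * x, (-1) ^ q γ * y, (-1) ^ (p γ + q γ) * t, u) =
      A γ (G z (x, y, t, u)))
    -- the translations
    (b : P → Y → V) (hb : ∀ γ, ContMDiff 𝓘(ℝ, ℂ) 𝓘(ℝ, V) ∞ (b γ))
    (hbc : ∀ γ δ z, b (γ * δ) z = A γ (b δ z) + b γ (δ • z))
    (hbk : ∀ γ, (∀ z : Y, γ • z = z) → ∃ v, ∀ z, b γ z = v)
    -- the smooth manifold `M`, the quotient of `Y × V` by `P`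
    (M : Type) [TopologicalSpace M] [ChartedSpace (EuclideanSpace ℝ (Fin (2 * k))) M]
    [IsManifold (𝓡 (2 * k)) ∞ M] (π : Y × V → M) (hs : Function.Surjective π)
    (hl : IsLocalDiffeomorph (𝓘(ℝ, ℂ).prod 𝓘(ℝ, V)) (𝓡 (2 * k)) ∞ π)
    (hπ : ∀ x y, π x = π y ↔ ∃ γ : P, (γ • x.1, A γ x.2 + b γ x.1) = y) :
    ∃ (N : Type) (_ : TopologicalSpace N) (_ : ChartedSpace (EuclideanSpace ℂ (Fin k)) N),
      IsManifold 𝓘(ℂ, EuclideanSpace ℂ (Fin k)) ∞ N ∧
      Nonempty (Diffeomorph (𝓡 (2 * k)) 𝓘(ℝ, EuclideanSpace ℂ (Fin k)) M N ∞) :=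
  Pool.Agent.H36.CX.finalG k hk Y hY P hol hprop hcomp F hF hF' s p q hsg hFP U hU V A G hG hGA
    b hb hbc hbk M π hs hl hπ

end Pool.Agent.Results.MP_1d980c_gt.TwistedTorusBundles
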