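import Pool.Agent.Helper58.TN.Jk
import Pool.Agent.W305.NC.Qu

set_option autoImplicit false

/-!
# Complex structures on two-step nilmanifolds whose commutator map has a small kernel

Let `G` be a simply connected two-step nilpotent Lie group of real dimension `2k` with center `Z(G)`,
and let `m` be a number with `dim G / Z(G) ≤ 2m` and `dim [G, G] ≤ 2k - 2m`; if the dimension of
`G / Z(G)` is even this can be one half of it.  The commutator is a linear map from the second exterior
power of a `2m`-dimensional space onto `[G, G]`, so `dim [G, G] ≤ m(2m - 1)`.  Assume that its kernel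
has dimension at most `4(m - 1)`, that is `dim [G, G] ≥ m(2m - 1) - 4(m - 1)`.

Let `M` be a smooth manifold of dimension `2k` which is a quotient of `G` by left translations, for
example a compact nilmanifold `Γ \ G`.  Then `M` carries a complex structure: `M` is diffeomorphic
to a complex manifold of dimension `k`.

The complex structure comes from a left-invariant one (`leftInvariant`), and from global coordinates
on `G` with values in `ℂ ^ k` in which all left translations are complex affine maps (`coordinates`).

`G` is given by its Lie algebra: a real vector space `V` with a Lie bracket `β` such that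
`[[x, y], z] = 0`, and the product of `G` is `x * y = x + y + [x, y] / 2`.

The proof: let `U` be a complement of dimension `2m` of a central subspace which contains `[G, G]`, let
`A` be the space of the forms `l([u, v])` on `U`, and `κ` the annihilator of `A` in the second exterior
power of `U`, of dimension at most `4(m - 1)`.  If the ranks of the elements of `κ` on a flag of vectors
in general position are compared, one obtains a basis `b_0, …, b_{2m-1}` of the dual of `U` such that
an element of `κ` is determined by its coordinates `(j, t)` with `j < t` and `j + t ≤ 2m - 1`.  The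
complex structure `J` on `U` exchanges `b_j` and `b_{2m-1-j}` up to factors, which are powers of a small
number `ε`, so that an element of `κ` which is anti-invariant under `J` has small coordinates `(j, t)`
and is zero.  So every alternating form on `U` is the sum of a form in `A` and a `J`-invariant form,
which is the condition for a complex structure on `[G, G]` that makes the Nijenhuis tensor vanish.
(The number `4(m - 1)` is the greatest possible in this statement on forms: for the annihilator `κ` of
dimension `4m - 3` spanned by the products with two fixed vectors there is no such `J`.)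
-/

namespace Pool.Agent.Results.MP_1d980c_gt.TwoStepSmallKernel

open Complex Module
open scoped Manifold ContDiff

/-- `β` is the Lie bracket of a two-step nilpotent (or abelian) Lie algebra: it is alternating, and
`[[x, y], z] = 0` for all `x`, `y`, `z`. -/
structure IsTwoStep {V : Type} [AddCommGroup V] [Module ℝ V] (β : V →ₗ[ℝ] V →ₗ[ℝ] V) : Prop where
  alt : ∀ x, β x x = 0
  step : ∀ x y z, β (β x y) z = 0

/-- The dimension of the commutator algebra, the span of all `[x, y]`. -/
noncomputable def commutatorDim {V : Type} [AddCommGroup V] [Module ℝ V]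
    (β : V →ₗ[ℝ] V →ₗ[ℝ] V) : ℕ :=
  finrank ℝ (Submodule.span ℝ {v | ∃ x y, β x y = v})

/-- The dimension of the center `{x | [x, y] = 0 for all y}`. -/
noncomputable def centerDim {V : Type} [AddCommGroup V] [Module ℝ V]
    (β : V →ₗ[ℝ] V →ₗ[ℝ] V) : ℕ :=
  finrank ℝ (LinearMap.ker β)

/-- The product `x * y = x + y + [x, y] / 2` of the simply connected Lie group with Lie algebra `V`
(the Baker-Campbell-Hausdorff product). -/
noncomputable def mul {V : Type} [AddCommGroup V] [Module ℝ V] (β : V →ₗ[ℝ] V →ₗ[ℝ] V)
    (x y : V) : V :=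
  x + y + (1 / 2 : ℝ) • β x y

/-- The product is associative (so this is a group with neutral element `0` and inverse `-x`). -/
theorem mul_assoc' {V : Type} [AddCommGroup V] [Module ℝ V] {β : V →ₗ[ℝ] V →ₗ[ℝ] V}
    (h : IsTwoStep β) (x y z : V) : mul β (mul β x y) z = mul β x (mul β y z) := by
  have ha : ∀ p q, β p q = - β q p := fun p q => by
    have h1 := h.alt (p + q)
    simp only [map_add, LinearMap.add_apply, h.alt, zero_add, add_zero] at h1
    exact eq_neg_of_add_eq_zero_right h1
  have h2 : β x (β y z) = 0 := by rw [ha, h.step, neg_zero]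
  simp only [mul, map_add, map_smul, LinearMap.add_apply, LinearMap.smul_apply, h.step, h2,
    smul_zero, add_zero, smul_add]
  abel

/-- Global coordinates in which the left translations are complex affine. -/
theorem coordinates {k m : ℕ} {V : Type} [NormedAddCommGroup V] [NormedSpace ℝ V]
    [FiniteDimensional ℝ V] (hV : finrank ℝ V = 2 * k) {β : V →ₗ[ℝ] V →ₗ[ℝ] V}
    (h : IsTwoStep β) (hZ : 2 * k ≤ centerDim β + 2 * m) (hC : commutatorDim β + 2 * m ≤ 2 * k)
    (hD : m * (2 * m - 1) ≤ commutatorDim β + 4 * (m - 1)) :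
    ∃ Φ : V ≃ₜ EuclideanSpace ℂ (Fin k), ContDiff ℝ ∞ Φ ∧ ContDiff ℝ ∞ Φ.symm ∧
      ∀ g : V, ∃ (c : EuclideanSpace ℂ (Fin k))
        (L : EuclideanSpace ℂ (Fin k) →L[ℂ] EuclideanSpace ℂ (Fin k)),
        ∀ z, Φ (mul β g (Φ.symm z)) = c + L z := by
  obtain ⟨J, Φ0, h1, h2, h3, h4, h5⟩ :=
    Pool.Agent.Helper58.TN.coords_small β h.alt h.step hV hZ hC hD
  exact ⟨{ toEquiv := Φ0
           continuous_toFun := h3.continuous
           continuous_invFun := h4.continuous }, h3, h4, h5⟩

/-- A left-invariant complex structure: its Nijenhuis tensor vanishes. -/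
theorem leftInvariant {k m : ℕ} {V : Type} [NormedAddCommGroup V] [NormedSpace ℝ V]
    [FiniteDimensional ℝ V] (hV : finrank ℝ V = 2 * k) {β : V →ₗ[ℝ] V →ₗ[ℝ] V}
    (h : IsTwoStep β) (hZ : 2 * k ≤ centerDim β + 2 * m) (hC : commutatorDim β + 2 * m ≤ 2 * k)
    (hD : m * (2 * m - 1) ≤ commutatorDim β + 4 * (m - 1)) :
    ∃ J : V →ₗ[ℝ] V, (∀ x, J (J x) = -x) ∧
      ∀ x y, β (J x) (J y) - J (β (J x) y) - J (β x (J y)) - β x y = 0 := by
  obtain ⟨J, Φ0, h1, h2, h3, h4, h5⟩ :=
    Pool.Agent.Helper58.TN.coords_small β h.alt h.step hV hZ hC hD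
  exact ⟨J, h1, h2⟩

/-- **Complex structures on two-step nilmanifolds.**  Let `G` be the simply connected two-step
nilpotent Lie group of dimension `2k` with Lie algebra `(V, β)`, `dim G / Z(G) ≤ 2m`,
`dim [G, G] ≤ 2k - 2m` and `dim [G, G] ≥ m(2m - 1) - 4(m - 1)`.  Let the smooth manifold `M` be the
quotient of `G` by the left translations by the elements of a set `Γ` (for example a lattice).  Then
`M` is diffeomorphic to a complex manifold. -/
theorem result (k m : ℕ) (V : Type) [NormedAddCommGroup V] [NormedSpace ℝ V]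
    [FiniteDimensional ℝ V] (hV : finrank ℝ V = 2 * k) (β : V →ₗ[ℝ] V →ₗ[ℝ] V)
    (h : IsTwoStep β) (hZ : 2 * k ≤ centerDim β + 2 * m) (hC : commutatorDim β + 2 * m ≤ 2 * k)
    (hD : m * (2 * m - 1) ≤ commutatorDim β + 4 * (m - 1))
    (M : Type) [TopologicalSpace M] [ChartedSpace (EuclideanSpace ℝ (Fin (2 * k))) M]
    [IsManifold (𝓡 (2 * k)) ∞ M] (Γ : Set V) (π : V → M) (hπ : Function.Surjective π)
    (hl : IsLocalDiffeomorph 𝓘(ℝ, V) (𝓡 (2 * k)) ∞ π)
    (hΓ : ∀ x y, π x = π y ↔ ∃ γ ∈ Γ, mul β γ x = y) :
    ∃ (N : Type) (_ : TopologicalSpace N) (_ : ChartedSpace (EuclideanSpace ℂ (Fin k)) N),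
      IsManifold 𝓘(ℂ, EuclideanSpace ℂ (Fin k)) ∞ N ∧
      Nonempty (Diffeomorph (𝓡 (2 * k)) 𝓘(ℝ, EuclideanSpace ℂ (Fin k)) M N ∞) := by
  obtain ⟨Φ, h3, h4, h5⟩ := coordinates hV h hZ hC hD
  refine Pool.Agent.W305.NC.quotient Φ π hl h3 h4 {g | ∃ γ ∈ Γ, g = mul β γ} ?_ ?_ hπ
  · rintro g ⟨γ, -, rfl⟩
    obtain ⟨c, L, hL⟩ := h5 γ
    have : (fun z => Φ (mul β γ (Φ.symm z))) = fun z => c + L z := funext hL
    rw [this]
    exact contDiff_const.add L.contDiff
  · intro x y
    rw [hΓ]
    constructor
    · rintro ⟨γ, hγ, hxy⟩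
      exact ⟨mul β γ, ⟨γ, hγ, rfl⟩, hxy⟩
    · rintro ⟨g, ⟨γ, hγ, rfl⟩, hxy⟩
      exact ⟨γ, hγ, hxy⟩

end Pool.Agent.Results.MP_1d980c_gt.TwoStepSmallKernel
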