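import Pool.Agent.Helper58.TE.F

set_option autoImplicit false

/-!
# Complex structures on all two-step nilmanifolds of dimension at most eight

Let `G` be a simply connected two-step nilpotent (or abelian) Lie group of real dimension `2k`, and
let `M` be a compact smooth manifold which is a quotient of `G` by left translations, for example
`M = Γ \ G` with a lattice `Γ`.

If `2k ≤ 8`, or if `dim G / Z(G) ≤ 5` and `dim [G, G] ≤ 3` (in any dimension `2k`), then `M` carries
a complex structure: `M` is diffeomorphic to a complex manifold of dimension `k`.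

So all compact two-step nilmanifolds of the dimensions `6` and `8` carry complex structures.

`G` is given by its Lie algebra: a real vector space `V` with a Lie bracket `β` such that
`[[x, y], z] = 0`, and the product of `G` is `x * y = x + y + [x, y] / 2`.

The proof.  If `dim [G, G] ≤ 2` or `dim G / Z(G) ≤ 4` there are left-invariant complex structures.
Otherwise `dim [G, G] = 3` and `dim G / Z(G)` is `3` or `5`.  Since `M` is compact, the commutators of
the elements of `Γ` generate a lattice in `[G, G]`, and there is a basis `β₁, β₂, β₃` of the forms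
`l([x, y])` with integral values on `Γ`.  The form `β₁` has a rational kernel vector `x` outside of the
center, as `dim G / Z(G)` is odd, and the commutator with `x` has a rank of at most two, as `β₁` does
not contribute.  So there is a rational subalgebra `N` of codimension two whose center contains `x`,
`Z(G)`, and `dim N / (Z(G) + ℝ x) ≤ 2`.  Hence `M` is a bundle over a two-dimensional torus, its fibre
is a quotient of `N`, and the center of `N` has dimension at least four; such bundles
carry complex structures which are in general not left-invariant: the complex structures of the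
fibres vary along a line in a twistor space (an earlier result, CentralTorusBundles).
-/

namespace Pool.Agent.Results.MP_1d980c_gt.TwoStepUpToDimensionEight

open Module
open scoped Manifold ContDiff

/-- `β` is the Lie bracket of a two-step nilpotent (or abelian) Lie algebra: it is alternating, and
`[[x, y], z] = 0` for all `x`, `y`, `z`. -/
structure IsTwoStep {V : Type} [AddCommGroup V] [Module ℝ V] (β : V →ₗ[ℝ] V →ₗ[ℝ] V) : Prop where
  alt : ∀ x, β x x = 0
  step : ∀ x y z, β (β x y) z = 0

/-- The dimension of the commutator algebra, the span of all `[x, y]`. -/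
noncomputable def commutatorDim {V : Type} [AddCommGroup V] [Module ℝ V]
    (β : V →ₗ[ℝ] V →ₗ[ℝ] V) : ℕ :=
  finrank ℝ (Submodule.span ℝ {v | ∃ x y, β x y = v})

/-- The dimension of the center `{x | [x, y] = 0 for all y}`. -/
noncomputable def centerDim {V : Type} [AddCommGroup V] [Module ℝ V]
    (β : V →ₗ[ℝ] V →ₗ[ℝ] V) : ℕ :=
  finrank ℝ (LinearMap.ker β)

/-- The product `x * y = x + y + [x, y] / 2` of the simply connected Lie group with Lie algebra `V`
(the Baker-Campbell-Hausdorff product). -/
noncomputable def mul {V : Type} [AddCommGroup V] [Module ℝ V] (β : V →ₗ[ℝ] V →ₗ[ℝ] V)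
    (x y : V) : V :=
  x + y + (1 / 2 : ℝ) • β x y

/-- **Two-step nilmanifolds of small dimension carry complex structures.**  Let `G` be the simply
connected two-step nilpotent Lie group of dimension `2k` with Lie algebra `(V, β)`, where `2k ≤ 8`, or
`dim G / Z(G) ≤ 5` and `dim [G, G] ≤ 3`.  Let the compact smooth manifold `M` be the quotient of `G` by
the left translations by the elements of a set `Γ`.  Then `M` is diffeomorphic to a complex
manifold. -/
theorem result (k : ℕ) (V : Type) [NormedAddCommGroup V] [NormedSpace ℝ V]
    [FiniteDimensional ℝ V] (hV : finrank ℝ V = 2 * k) (β : V →ₗ[ℝ] V →ₗ[ℝ] V)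
    (h : IsTwoStep β)
    (hdim : 2 * k ≤ 8 ∨ (2 * k ≤ centerDim β + 5 ∧ commutatorDim β ≤ 3))
    (M : Type) [TopologicalSpace M] [CompactSpace M]
    [ChartedSpace (EuclideanSpace ℝ (Fin (2 * k))) M] [IsManifold (𝓡 (2 * k)) ∞ M]
    (Γ : Set V) (π : V → M) (hπ : Function.Surjective π)
    (hl : IsLocalDiffeomorph 𝓘(ℝ, V) (𝓡 (2 * k)) ∞ π)
    (hΓ : ∀ x y, π x = π y ↔ ∃ γ ∈ Γ, mul β γ x = y) :
    ∃ (N : Type) (_ : TopologicalSpace N) (_ : ChartedSpace (EuclideanSpace ℂ (Fin k)) N),
      IsManifold 𝓘(ℂ, EuclideanSpace ℂ (Fin k)) ∞ N ∧
      Nonempty (Diffeomorph (𝓡 (2 * k)) 𝓘(ℝ, EuclideanSpace ℂ (Fin k)) M N ∞) :=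
  Pool.Agent.Helper58.TE.final k hV h.alt h.step
    (hdim.imp (fun h => by omega) fun h => h) M Γ π hπ hl hΓ

end Pool.Agent.Results.MP_1d980c_gt.TwoStepUpToDimensionEight
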